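import Pool.Agent.H45.Gnp

open MeasureTheory Filter Topology unitInterval
open scoped ENNReal

namespace Pool.Agent.Results.MP_e6ec33_pr.TwoPaths

/-- `H` has `m` vertex-disjoint paths covering all vertices (one vertex is a path). -/
def IsPathCover {V : Type} (H : SimpleGraph V) (m : ℕ) : Prop :=
  ∃ (a b : Fin m → V) (P : ∀ i, H.Walk (a i) (b i)),
    (∀ i, (P i).IsPath) ∧ ∀ v, ∃! i, v ∈ (P i).support

/-- The path cover number `μ(H)`. -/
noncomputable def pathCover {V : Type} (H : SimpleGraph V) : ℕ := sInf {m | IsPathCover H m}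

/-- `f_k(G)`: the least size of `F ⊆ E(G)` with `μ(G - F) = k` (`⊤` if there is none). -/
noncomputable def f {V : Type} (k : ℕ) (G : SimpleGraph V) : ℕ∞ :=
  ⨅ (F : Set (Sym2 V)) (_ : F ⊆ G.edgeSet) (_ : pathCover (G.deleteEdges F) = k), F.encard

open Classical in
/-- The minimum degree `δ(G)`. -/
noncomputable def δ {n : ℕ} (G : SimpleGraph (Fin n)) : ℕ := G.minDegree

lemma split {V : Type} {H : SimpleGraph V} (e : Sym2 V) {a b : V} (P : H.Walk a b)
    (hP : P.IsPath) (he : e ∈ P.edges) :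
    ∃ (x y : V) (Q₁ : (H.deleteEdges {e}).Walk a x) (Q₂ : (H.deleteEdges {e}).Walk y b),
      Q₁.support ++ Q₂.support = P.support := by
  induction P with
  | nil => simp at he
  | @cons u c w h P ih =>
    have hP' : P.IsPath := hP.of_cons
    by_cases hec : e = s(u, c)
    · have hn : e ∉ P.edges := by
        have := hP.isTrail.edges_nodup
        rw [SimpleGraph.Walk.edges_cons, List.nodup_cons] at this
        exact hec ▸ this.1
      refine ⟨u, c, .nil, P.toDeleteEdges {e} (fun e' he' h' => hn (h' ▸ he')), ?_⟩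
      simp
    · rw [SimpleGraph.Walk.edges_cons, List.mem_cons] at he
      obtain ⟨x, y, Q₁, Q₂, hQ⟩ := ih hP' (he.resolve_left hec)
      refine ⟨x, y, .cons (by simpa [h] using Ne.symm hec) Q₁, Q₂, ?_⟩
      simp [hQ]

lemma step {V : Type} {H : SimpleGraph V} (e : Sym2 V) (h : IsPathCover H 1) :
    IsPathCover (H.deleteEdges {e}) 1 ∨ IsPathCover (H.deleteEdges {e}) 2 := by
  obtain ⟨a, b, P, hP, hc⟩ := h
  have hall : ∀ v, v ∈ (P 0).support := fun v => by
    obtain ⟨i, hi, -⟩ := hc v
    rwa [Subsingleton.elim i 0] at hi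
  by_cases he : e ∈ (P 0).edges
  · right
    obtain ⟨x, y, Q₁, Q₂, hQ⟩ := split e (P 0) (hP 0) he
    have hnd : (Q₁.support ++ Q₂.support).Nodup := hQ ▸ (hP 0).support_nodup
    rw [List.nodup_append] at hnd
    refine ⟨![a 0, y], ![x, b 0], Fin.cons Q₁ (Fin.cons Q₂ finZeroElim), ?_, fun v => ?_⟩
    · intro i
      fin_cases i
      · exact SimpleGraph.Walk.IsPath.mk' hnd.1
      · exact SimpleGraph.Walk.IsPath.mk' hnd.2.1
    · have hv := hall v
      rw [← hQ, List.mem_append] at hv
      rcases hv with hv | hv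
      · refine ⟨0, hv, fun j hj => ?_⟩
        fin_cases j
        · rfl
        · exact absurd rfl (hnd.2.2 v hv v hj)
      · refine ⟨1, hv, fun j hj => ?_⟩
        fin_cases j
        · exact absurd rfl (hnd.2.2 v hj v hv)
        · rfl
  · left
    refine ⟨fun _ => a 0, fun _ => b 0,
      fun _ => (P 0).toDeleteEdges {e} (fun e' he' h' => he (h' ▸ he')), fun _ => ?_, fun v => ?_⟩
    · exact SimpleGraph.Walk.IsPath.mk' (by simpa using (hP 0).support_nodup)
    · exact ⟨0, by simpa using hall v, fun j _ => Subsingleton.elim _ _⟩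

lemma not_zero {V : Type} [Nonempty V] (H : SimpleGraph V) : ¬ IsPathCover H 0 := by
  rintro ⟨a, b, P, -, hc⟩
  obtain ⟨i, -⟩ := hc (Classical.arbitrary V)
  exact i.elim0

lemma cover_of_eq {V : Type} {H : SimpleGraph V} {m : ℕ} (hm : m ≠ 0) (h : pathCover H = m) :
    IsPathCover H m := by
  have hne : {m | IsPathCover H m}.Nonempty := by
    by_contra hne
    rw [Set.not_nonempty_iff_eq_empty] at hne
    rw [pathCover, hne, Nat.sInf_empty] at h
    exact hm h.symm
  have := Nat.sInf_mem hne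
  rwa [show sInf {m | IsPathCover H m} = m from h] at this

lemma one_or_two {V : Type} [Nonempty V] {H : SimpleGraph V} {m : ℕ} (hm : m ≤ 2)
    (h : IsPathCover H m) : pathCover H = 1 ∨ pathCover H = 2 := by
  have h1 : pathCover H ≤ m := Nat.sInf_le h
  have h2 : IsPathCover H (pathCover H) := Nat.sInf_mem (s := {m | IsPathCover H m}) ⟨m, h⟩
  have h3 : pathCover H ≠ 0 := fun h0 => not_zero H (h0 ▸ h2)
  omega

lemma mono {V : Type} {H G : SimpleGraph V} (hHG : H ≤ G) {m : ℕ} (h : IsPathCover H m) :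
    IsPathCover G m := by
  obtain ⟨a, b, P, hP, hc⟩ := h
  exact ⟨a, b, fun i => (P i).mapLe hHG, fun i => (hP i).mapLe hHG, by simpa using hc⟩

lemma exists_two {V : Type} [Nonempty V] [DecidableEq V] {G : SimpleGraph V}
    (h : pathCover G = 1) (F : Finset (Sym2 V)) :
    pathCover (G.deleteEdges F) = 1 ∨ ∃ F' ⊆ F, pathCover (G.deleteEdges F') = 2 := by
  induction F using Finset.induction_on with
  | empty => left; simpa using h
  | insert e F _ ih =>
    rcases ih with ih | ⟨F', hF', h2⟩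
    · have hs := step e (cover_of_eq one_ne_zero ih)
      have heq : (G.deleteEdges F).deleteEdges {e} = G.deleteEdges ↑(insert e F) := by
        rw [SimpleGraph.deleteEdges_deleteEdges, Finset.coe_insert, Set.union_singleton]
      rw [heq] at hs
      rcases (hs.elim (one_or_two (by norm_num)) (one_or_two le_rfl)) with h1 | h1
      · exact Or.inl h1
      · exact Or.inr ⟨_, subset_rfl, h1⟩
    · exact Or.inr ⟨F', hF'.trans (Finset.subset_insert _ _), h2⟩

lemma f_le {n : ℕ} (hn : 2 ≤ n) (G : SimpleGraph (Fin n)) (h : pathCover G ≤ 2)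
    (h0 : pathCover G ≠ 0) : f 2 G ≤ δ G := by
  classical
  haveI : Nonempty (Fin n) := ⟨⟨0, by omega⟩⟩
  by_cases h2 : pathCover G = 2
  · refine le_trans ?_ (zero_le (a := (δ G : ℕ∞)))
    refine iInf_le_of_le ∅ (iInf_le_of_le (Set.empty_subset _) (iInf_le_of_le (by simpa) ?_))
    simp
  have h1 : pathCover G = 1 := by omega
  obtain ⟨v, hv⟩ := G.exists_minimal_degree_vertex
  rcases exists_two h1 (G.incidenceFinset v) with h3 | ⟨F, hF, h3⟩
  · exfalso
    obtain ⟨a, b, P, hP, hc⟩ := cover_of_eq one_ne_zero h3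
    have hall : ∀ w, w ∈ (P 0).support := fun w => by
      obtain ⟨i, hi, -⟩ := hc w
      rwa [Subsingleton.elim i 0] at hi
    obtain ⟨w, hw⟩ : ∃ w : Fin n, w ≠ v := by
      haveI : Nontrivial (Fin n) := Fin.nontrivial_iff_two_le.2 hn
      exact exists_ne v
    have hr : (G.deleteEdges ↑(G.incidenceFinset v)).Reachable v w :=
      (((P 0).takeUntil v (hall v)).reachable.symm).trans ((P 0).takeUntil w (hall w)).reachable
    obtain ⟨Q⟩ := hr
    cases Q with
    | nil => exact hw rfl
    | cons hadj _ =>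
      rw [SimpleGraph.deleteEdges_adj] at hadj
      exact hadj.2 (by simp [SimpleGraph.incidenceSet, hadj.1])
  · refine iInf_le_of_le (F : Set _) (iInf_le_of_le ?_ (iInf_le_of_le h3 ?_))
    · intro e he
      exact G.incidenceSet_subset v (by simpa using hF he)
    · rw [Set.encard_coe_eq_coe_finsetCard]
      have := Finset.card_le_card hF
      rw [SimpleGraph.card_incidenceFinset_eq_degree, ← hv] at this
      exact_mod_cast (show F.card ≤ δ G by unfold δ; convert this)

lemma ne_of_deg {n : ℕ} (hn : 2 ≤ n) (G : SimpleGraph (Fin n))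
    (h : f 2 G = (2 * (δ G - 1) : ℕ)) : ∃ v, (G.neighborSet v).ncard ≤ 2 := by
  classical
  haveI : Nonempty (Fin n) := ⟨⟨0, by omega⟩⟩
  have hex : ∃ F : Set (Sym2 (Fin n)), pathCover (G.deleteEdges F) = 2 := by
    by_contra hne
    push Not at hne
    have : f 2 G = ⊤ := by simp [f, hne]
    rw [this] at h
    exact absurd h.symm (ENat.coe_ne_top _)
  obtain ⟨F, hF⟩ := hex
  have hc := one_or_two le_rfl (mono (G.deleteEdges_le F) (cover_of_eq two_ne_zero hF))
  have hle := f_le hn G (by omega) (by omega)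
  rw [h] at hle
  have hle' : 2 * (δ G - 1) ≤ δ G := by exact_mod_cast hle
  obtain ⟨v, hv⟩ := G.exists_minimal_degree_vertex
  refine ⟨v, ?_⟩
  have h1 : (G.neighborSet v).ncard = G.degree v := by
    rw [← SimpleGraph.card_neighborFinset_eq_degree, ← Set.ncard_coe_finset,
      SimpleGraph.coe_neighborFinset]
  have h2 : δ G = G.degree v := by unfold δ; convert hv
  omega

lemma bound {n : ℕ} (hn : 3 ≤ n) (p : I) (w : ℝ) (hw : 0 ≤ w)
    (hdef : w = n * (p : ℝ) - Real.log n - 2 * Real.log (Real.log n)) :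
    n * ((1 + n * (p : ℝ) + (n * (p : ℝ)) ^ 2) * (1 - p : ℝ) ^ (n - 3)) ≤
      3 * Real.exp 3 * ((3 + w) ^ 2 * Real.exp (-w)) := by
  have hn' : (3 : ℝ) ≤ n := by exact_mod_cast hn
  have hl : 1 ≤ Real.log n := by
    rw [Real.le_log_iff_exp_le (by linarith)]
    exact (Real.exp_one_lt_d9.le.trans (by norm_num)).trans hn'
  have hll : 0 ≤ Real.log (Real.log n) := Real.log_nonneg hl
  have hll' : Real.log (Real.log n) ≤ Real.log n :=
    (Real.log_le_sub_one_of_pos (by linarith)).trans (by linarith)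
  set x := n * (p : ℝ) with hx
  set L := Real.log n with hL
  have hx1 : 1 ≤ x := by linarith
  have hxL : x ≤ L * (3 + w) := by nlinarith
  have h1 : 1 + x + x ^ 2 ≤ 3 * (L * (3 + w)) ^ 2 := by nlinarith
  have h2 : (1 - p : ℝ) ^ (n - 3) ≤ Real.exp 3 * Real.exp (-x) := by
    calc (1 - p : ℝ) ^ (n - 3) ≤ Real.exp (-p) ^ (n - 3) :=
          pow_le_pow_left₀ (sub_nonneg.2 p.2.2) (Real.one_sub_le_exp_neg _) _
      _ = Real.exp (((n - 3 : ℕ) : ℝ) * (-p)) := by rw [← Real.exp_nat_mul]
      _ ≤ _ := by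
        rw [← Real.exp_add, Real.exp_le_exp, Nat.cast_sub hn, hx]
        have := p.2.2
        push_cast; nlinarith
  have h3 : Real.exp (-x) = Real.exp (-w) / (n * L ^ 2) := by
    have : -x = -w - L - 2 * Real.log L := by linarith
    rw [this, Real.exp_sub, Real.exp_sub, hL, Real.exp_log (by linarith), ← hL,
      show 2 * Real.log L = Real.log (L ^ 2) by simp, Real.exp_log (by positivity)]
    field_simp
  calc n * ((1 + x + x ^ 2) * (1 - p : ℝ) ^ (n - 3))
      ≤ n * ((3 * (L * (3 + w)) ^ 2) * (Real.exp 3 * Real.exp (-x))) := by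
        gcongr
        exact pow_nonneg (sub_nonneg.2 p.2.2) _
    _ = _ := by rw [h3]; field_simp

theorem result :
    ∀ p : ℕ → I,
      Tendsto (fun n : ℕ => n * (p n : ℝ) - Real.log n - 2 * Real.log (Real.log n)) atTop atTop →
      Tendsto (fun n : ℕ => SimpleGraph.binomialRandom (Fin n) (p n)
        {G | f 2 G = (2 * (δ G - 1) : ℕ)}) atTop (𝓝 0) := by
  intro p hp
  have h0 : Tendsto (fun w : ℝ => 3 * Real.exp 3 * ((3 + w) ^ 2 * Real.exp (-w))) atTop (𝓝 0) := by
    have h := (Real.tendsto_pow_mul_exp_neg_atTop_nhds_zero 2).comp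
      (tendsto_atTop_add_const_left atTop 3 tendsto_id)
    have h' := h.const_mul (3 * Real.exp 3 * Real.exp 3)
    rw [mul_zero] at h'
    refine h'.congr fun w => ?_
    simp only [Function.comp, id]
    rw [show -w = 3 + -(3 + w) by ring, Real.exp_add]; ring
  have h1 := ENNReal.tendsto_ofReal (h0.comp hp)
  rw [ENNReal.ofReal_zero] at h1
  refine tendsto_of_tendsto_of_tendsto_of_le_of_le' tendsto_const_nhds h1
    (Eventually.of_forall fun _ => zero_le) ?_
  filter_upwards [eventually_ge_atTop 3, hp.eventually_ge_atTop 0] with n hn hw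
  refine (measure_mono fun G hG => ne_of_deg (by omega) G hG).trans ?_
  refine (H45.Gnp.lowdeg_le (p n) (by simpa using hn)).trans (ENNReal.ofReal_le_ofReal ?_)
  simpa using bound hn (p n) _ hw rfl

end Pool.Agent.Results.MP_e6ec33_pr.TwoPaths
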